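import Pool.Agent.Helper643.Bern.Final

open BernP

namespace Pool.Agent.Results.MP_969ff5_an.OrderDimTwo

/-- For `d = 2`: the set of ratios `‖t^{(r)}(·,α)‖₁ / ‖t‖₁` over the nonzero `t ∈ 𝒯(N)`; here
`P (Gam N) c` is `t(x,y) = ∑_{k ∈ Γ(N)} c(k) e^{i(k₁x+k₂y)}`, its `(r,α)`-derivative has the
coefficients `mu r α₁ k₁ * mu r α₂ k₂ * c k`. -/
noncomputable def ratios (N : ℕ) (r : ℝ) (α : ℝ × ℝ) : Set ℝ :=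
  {ρ | ∃ c : ℤ × ℤ → ℂ, (∃ k ∈ Gam N, c k ≠ 0) ∧
    ρ = nrm1 (P (Gam N) (fun k => mu r α.1 k.1 * mu r α.2 k.2 * c k)) / nrm1 (P (Gam N) c)}

/-- `B₁(N; 2, r, α)`. -/
noncomputable def B1 (N : ℕ) (r : ℝ) (α : ℝ × ℝ) : ℝ := sSup (ratios N r α)

/-- For `d = 2` the exact order is `B₁(N) ≍ N^r`, for every `r > 0`, uniformly in `α`. -/
theorem result (r : ℝ) (hr : 0 < r) :
    ∃ C : ℝ, 0 < C ∧ ∀ (α : ℝ × ℝ) (N : ℕ), 1 ≤ N →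
      BddAbove (ratios N r α) ∧ (N:ℝ)^r ≤ B1 N r α ∧ B1 N r α ≤ C * (N:ℝ)^r := by
  obtain ⟨C, hC, h⟩ := BernP.upperGam r hr
  refine ⟨C, hC, ?_⟩
  intro α N hN
  have hub : ∀ ρ ∈ ratios N r α, ρ ≤ C * (N:ℝ)^r := by
    rintro ρ ⟨c, hc, rfl⟩
    rw [div_le_iff₀ (BernP.nrm1_pos' _ c hc)]
    exact h N hN α.1 α.2 c
  have hne : (N:ℝ)^r ∈ ratios N r α := BernP.single_ratio N hN r hr α.1 α.2
  exact ⟨⟨_, hub⟩, le_csSup ⟨_, hub⟩ hne, csSup_le ⟨_, hne⟩ hub⟩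

end Pool.Agent.Results.MP_969ff5_an.OrderDimTwo
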